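import Pool.Agent.H86.BlJ

namespace Pool.Agent.Results.MP_100021_an.Atoms
open Pool.Agent.H86.Bl Filter Topology

/-- `a` is an atom. -/
def IsAtomBL {X : Type} [BL X] (a : X) : Prop :=
  0 < a ∧ ∀ x, 0 ≤ x → x ≤ a → ∃ t : ℝ, 0 ≤ t ∧ x = t • a

/-- `f` is order continuous: `f (x α) → 0` along every decreasing net with infimum `0`. -/
def OrdCont {X : Type} [BL X] (f : X →L[ℝ] ℝ) : Prop :=
  ∀ (ι : Type) [Preorder ι] [IsDirectedOrder ι] [Nonempty ι] (x : ι → X), Antitone x →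
    IsGLB (Set.range x) 0 → Tendsto (fun i => f (x i)) atTop (𝓝 0)

theorem step {X : Type} [BL X] {f : X →L[ℝ] ℝ} (hf : OrdCont f) (ha : ∀ a, IsAtomBL a → f a = 0)
    {χ : X →L[ℝ] ℝ} (hχ : LatHom χ) {z : X} (hz : 0 ≤ z) {c : ℝ} (hc : c < f z) :
    ∃ y, 0 ≤ y ∧ y ≤ z ∧ χ y = 0 ∧ c < f y := by
  have sq : ∀ y y' : X, 0 ≤ y → y ≤ y' → χ y' = 0 → χ y = 0 := fun y y' h0 h1 h2 => by
    have := hχ.nonneg (sub_nonneg.2 h1)
    rw [map_sub] at this
    linarith [hχ.nonneg h0]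
  by_cases h : ∀ b, (∀ y, 0 ≤ y → y ≤ z → χ y = 0 → y ≤ b) → z ≤ b
  · let D := {y : X // 0 ≤ y ∧ y ≤ z ∧ χ y = 0}
    haveI : Nonempty D := ⟨⟨0, le_rfl, hz, map_zero _⟩⟩
    haveI : IsDirectedOrder D := ⟨fun a b => ⟨⟨a.1 ⊔ b.1, le_sup_of_le_left a.2.1,
      sup_le a.2.2.1 b.2.2.1, sq _ (a.1 + b.1) (le_sup_of_le_left a.2.1) (sup_le
        (le_add_of_nonneg_right b.2.1) (le_add_of_nonneg_left a.2.1))
          (by rw [map_add, a.2.2.2, b.2.2.2, add_zero])⟩, le_sup_left (a := a.1), le_sup_right (a := a.1)⟩⟩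
    have := hf D (fun y => z - y.1) (fun a b hab => sub_le_sub_left (α := X) hab z) ⟨by
      rintro _ ⟨y, rfl⟩; exact sub_nonneg.2 y.2.2.1, fun w hw => by
        have := h (z - w) fun y h0 h1 h2 => le_sub_comm.1 (hw ⟨⟨y, h0, h1, h2⟩, rfl⟩)
        exact (le_sub_self_iff z).1 this⟩
    obtain ⟨y, hy⟩ := (this.eventually_lt_const (sub_pos.2 hc)).exists
    rw [map_sub] at hy
    exact ⟨y.1, y.2.1, y.2.2.1, y.2.2.2, by linarith⟩
  push Not at h
  obtain ⟨b, hb, hb'⟩ := h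
  set a := z - z ⊓ b with had
  have a0 : 0 ≤ a := sub_nonneg.2 inf_le_left
  have inj : ∀ y, 0 ≤ y → y ≤ a → χ y = 0 → y = 0 := fun y h0 h1 h2 => by
    have : ∀ n : ℕ, (n : ℝ) • y ≤ z := fun n => by
      induction n with
      | zero => simpa using hz
      | succ n ih =>
        rw [Nat.cast_succ, add_smul, one_smul]
        exact (add_le_add (le_inf ih (hb _ (smul_nn n.cast_nonneg h0) ih (by
          rw [map_smul, h2, smul_zero]))) h1).trans_eq (add_sub_cancel _ _)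
    by_contra hy
    obtain ⟨n, hn⟩ := exists_nat_gt (‖z‖ / ‖y‖)
    have h3 := HasSolidNorm.solid ((abs_of_nonneg (smul_nn n.cast_nonneg h0)).trans_le
      ((this n).trans (le_abs_self z)))
    rw [norm_smul, Real.norm_natCast] at h3
    exact absurd ((div_lt_iff₀ (norm_pos_iff.2 hy)).1 hn) (not_lt.2 h3)
  have an : a ≠ 0 := fun h => hb' (by rw [sub_eq_zero.1 h]; exact inf_le_right)
  have ap : 0 < χ a := (hχ.nonneg a0).lt_of_ne fun h => an (inj a a0 le_rfl h.symm)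
  have inj' : ∀ (y : X) (t : ℝ), 0 ≤ y → y ≤ t • a → χ y = 0 → y = 0 := fun y t h0 h1 h2 => by
    have p : 0 < |t| + 1 := by positivity
    have := inj ((|t| + 1)⁻¹ • y) (smul_nn (by positivity) h0) (by
      have := smul_le_smul_of_nonneg_left (h1.trans (smul_mono_l a0 (b := |t| + 1)
        (by linarith [le_abs_self t]))) (inv_nonneg.2 p.le)
      rwa [smul_smul, inv_mul_cancel₀ p.ne', one_smul] at this) (by rw [map_smul, h2, smul_zero])
    exact (smul_eq_zero.1 this).resolve_left (by positivity)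
  have key : ∀ x : X, 0 ≤ x → (χ x / χ a) • a ≤ x := fun x hx => by
    have e : ((χ x / χ a) • a - x)⁺ = (2⁻¹ : ℝ) • (((χ x / χ a) • a - x) + |(χ x / χ a) • a - x|) := by
      rw [posPart_def, sup_eq_half_smul_add_add_abs_sub' ℝ, add_zero, zero_sub, abs_neg]
    have e0 : χ ((χ x / χ a) • a - x) = 0 := by
      rw [map_sub, map_smul, smul_eq_mul, div_mul_cancel₀ _ ap.ne', sub_self]
    refine sub_nonpos.1 (posPart_eq_zero.1 (inj' _ (χ x / χ a) (posPart_nonneg _) (sup_le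
      (sub_le_self _ hx) (smul_nn (div_nonneg (hχ.nonneg hx) ap.le) a0)) ?_))
    rw [e, map_smul, map_add, hχ, e0, abs_zero, add_zero, smul_zero]
  have e1 : ∀ x : X, χ (x - (χ x / χ a) • a) = 0 := fun x => by
    rw [map_sub, map_smul, smul_eq_mul, div_mul_cancel₀ _ ap.ne', sub_self]
  have fa := ha a ⟨lt_of_le_of_ne a0 an.symm, fun x h0 h1 => ⟨χ x / χ a,
    div_nonneg (hχ.nonneg h0) ap.le, sub_eq_zero.1 (inj _ (sub_nonneg.2 (key x h0)) ((sub_le_self _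
      (smul_nn (div_nonneg (hχ.nonneg h0) ap.le) a0)).trans h1) (e1 x))⟩⟩
  refine ⟨z - (χ z / χ a) • a, sub_nonneg.2 (key z hz), sub_le_self _
    (smul_nn (div_nonneg (hχ.nonneg hz) ap.le) a0), e1 z, ?_⟩
  rwa [map_sub, map_smul, fa, smul_zero, sub_zero]

theorem nonpos {X : Type} [BL X] (hX : Proj.{0} X) {f : X →L[ℝ] ℝ} (hf : OrdCont f)
    (ha : ∀ a, IsAtomBL a → f a = 0) (x : X) (hx : 0 ≤ x) : f x ≤ 0 := by
  classical
  by_contra h0
  obtain ⟨c, hc, hc'⟩ := exists_between (not_le.1 h0)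
  obtain ⟨A, P, _, g, S, h, s1, s2⟩ := hX.retract
  obtain ⟨e, e1, e2, e3, e4⟩ := h.points
  choose C hC hC' using e4
  have st : ∀ (z : X) (p : A → unitInterval), ∃ y, 0 ≤ z → c < f z →
      0 ≤ y ∧ y ≤ z ∧ e p (S y) = 0 ∧ c < f y := fun z p => by
    by_cases hz : 0 ≤ z ∧ c < f z
    · exact (step hf ha ((e1 p).comp' s1) hz.1 hz.2).imp fun y hy _ _ => hy
    · exact ⟨0, fun a b => absurd ⟨a, b⟩ hz⟩
  choose σ hσ using st
  have dn : ∀ T : Set X, ∃ h : ℕ → A → unitInterval, T.Countable → ∀ (p : A → unitInterval)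
      (I : Set A) (t : A → Set unitInterval), I.Finite → (∀ a, t a ∈ 𝓝 (p a)) →
        ∃ m, ∀ a ∈ I, a ∈ (⋃ y ∈ T, C (S y)) → h m a ∈ t a := fun T => by
    by_cases hT : T.Countable
    · exact (dense_on _ (hT.biUnion fun y _ => hC _)).imp fun _ h _ => h
    · exact ⟨0, fun a => absurd a hT⟩
  choose d hd using dn
  set z := bk σ d x with hzd
  have z1 : ∀ n, z (n + 1) = σ (z n) (d (Set.range fun k : Fin ((Nat.unpair n).1 + 1) => z k)
    (Nat.unpair n).2) := fun n => by rw [hzd, bk]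
  have z2 : ∀ n, 0 ≤ z n ∧ c < f (z n) := fun n => by
    induction n with
    | zero => rw [hzd, bk]; exact ⟨hx, hc'⟩
    | succ n ih => rw [z1]; exact ⟨(hσ _ _ ih.1 ih.2).1, (hσ _ _ ih.1 ih.2).2.2.2⟩
  have := hf ℕ z (antitone_nat_of_succ_le fun n => by
    rw [z1]; exact (hσ _ _ (z2 n).1 (z2 n).2).2.1) ⟨by rintro _ ⟨n, rfl⟩; exact (z2 n).1, ?_⟩
  · exact absurd (ge_of_tendsto' this fun n => (z2 n).2.le) (not_le.2 hc)
  intro w hw
  refine posPart_eq_zero.1 (s2 ((e3 _ fun p => ?_).trans (map_zero S).symm))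
  have w0 := fun q => ((e1 q).comp' s1).nonneg (posPart_nonneg w)
  by_contra hp
  obtain ⟨I, hI, t, ht, hU⟩ := mem_pi.1 (nhds_pi (A := fun _ : A => unitInterval) ▸
    ((isOpen_ne_fun (e2 (S w⁺)) continuous_const).mem_nhds hp))
  obtain ⟨i, hi⟩ : ∃ i : ℕ, ∀ a ∈ I, (∃ n, a ∈ C (S (z n))) → ∃ n ≤ i, a ∈ C (S (z n)) := by
    have : ∀ a, ∃ n : ℕ, (∃ n, a ∈ C (S (z n))) → a ∈ C (S (z n)) := fun a => by
      by_cases h : ∃ n, a ∈ C (S (z n))
      · exact h.imp fun _ h _ => h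
      · exact ⟨0, fun a => absurd a h⟩
    choose k hk using this
    obtain ⟨i, hi⟩ := (hI.image k).bddAbove
    exact ⟨i, fun a ha h => ⟨k a, hi ⟨a, ha, rfl⟩, hk a h⟩⟩
  obtain ⟨m, hm⟩ := hd (Set.range fun k : Fin (i + 1) => z k) (Set.countable_range _) p I t hI ht
  set r := d (Set.range fun k : Fin (i + 1) => z k) m with hr
  have z3 : e r (S (z (Nat.pair i m + 1))) = 0 := by
    have := (hσ _ r (z2 (Nat.pair i m)).1 (z2 _).2).2.2.1
    rw [z1]
    convert this <;> simp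
  have q1 := hU (a := fun a => if ∃ n, a ∈ C (S (z n)) then r a else p a) fun a ha => by
    beta_reduce
    split_ifs with h
    · obtain ⟨n, hn, h'⟩ := hi a ha h
      exact hm a ha (Set.mem_biUnion (x := z n) ⟨⟨n, by omega⟩, rfl⟩ h')
    · exact mem_of_mem_nhds (ht a)
  rw [← hC' _ (fun a => if ∃ n, a ∈ C (S (z n)) then r a else p a) r fun a ha => if_pos ⟨_, ha⟩] at z3
  have q2 := ((e1 fun a => if ∃ n, a ∈ C (S (z n)) then r a else p a).comp' s1).nonneg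
    (sub_nonneg.2 (sup_le (hw ⟨Nat.pair i m + 1, rfl⟩) (z2 _).1))
  rw [map_sub] at q2
  exact q1 (le_antisymm (by
    have := sub_nonneg.1 q2
    exact this.trans_eq z3) (w0 _))

theorem result (X : Type) [BL X] (hX : Proj.{0} X) (f : X →L[ℝ] ℝ) (hf : OrdCont f)
    (ha : ∀ a, IsAtomBL a → f a = 0) : f = 0 := by
  have hf' : OrdCont (-f) := fun ι _ _ _ x h1 h2 => by simpa using (hf ι x h1 h2).neg
  have : ∀ x, 0 ≤ x → f x = 0 := fun x hx => le_antisymm (nonpos hX hf ha x hx) (by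
    simpa using nonpos hX hf' (fun a h => by simp [ha a h]) x hx)
  ext x
  rw [← posPart_sub_negPart x, map_sub, this _ (posPart_nonneg x), this _ (negPart_nonneg x)]
  simp

end Pool.Agent.Results.MP_100021_an.Atoms
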